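import Pool.Agent.Lib.MP_4fbe7c_an.SD.Base

set_option autoImplicit false

open Set MeasureTheory intervalIntegral

namespace Pool.Agent.Lib.MP_4fbe7c_an.SD.H95

open Pool.Agent.Lib.MP_4fbe7c_an.SD

theorem DerivOn.cont {L : ℝ} {f f' : ℝ → ℝ} (h : DerivOn L f f') : ContinuousOn f (Icc 0 L) :=
  fun x hx => (h x hx).continuousWithinAt

theorem DerivOn.hasDerivAt {L : ℝ} {f f' : ℝ → ℝ} (h : DerivOn L f f') {x : ℝ}
    (hx : x ∈ Ioo 0 L) : HasDerivAt f (f' x) x :=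
  (h x (Ioo_subset_Icc_self hx)).hasDerivAt (Icc_mem_nhds hx.1 hx.2)

theorem intble {L : ℝ} {f : ℝ → ℝ} (hf : ContinuousOn f (Icc 0 L)) {a b : ℝ}
    (ha : a ∈ Icc 0 L) (hb : b ∈ Icc 0 L) : IntervalIntegrable f volume a b := by
  apply ContinuousOn.intervalIntegrable
  exact hf.mono (uIcc_subset_Icc ha hb)

theorem ftc {L : ℝ} {f f' : ℝ → ℝ} (h : DerivOn L f f') (hc : ContinuousOn f' (Icc 0 L))
    {a b : ℝ} (ha : 0 ≤ a) (hab : a ≤ b) (hb : b ≤ L) : ∫ x in a..b, f' x = f b - f a := by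
  apply intervalIntegral.integral_eq_sub_of_hasDerivAt_of_le hab
  · exact (DerivOn.cont h).mono (Icc_subset_Icc ha hb)
  · intro x hx
    exact DerivOn.hasDerivAt h ⟨lt_of_le_of_lt ha hx.1, lt_of_lt_of_le hx.2 hb⟩
  · exact intble hc ⟨ha, hab.trans hb⟩ ⟨ha.trans hab, hb⟩

theorem exists_prim {L : ℝ} (hL : 0 < L) {f : ℝ → ℝ} (hf : ContinuousOn f (Icc 0 L)) :
    ∃ F : ℝ → ℝ, DerivOn L F f ∧ F 0 = 0 := by
  have hc : Continuous (IccExtend hL.le (domRestrict (Icc 0 L) f)) :=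
    (continuousOn_iff_continuous_domRestrict.mp hf).Icc_extend'
  refine ⟨fun x => ∫ t in (0)..x, IccExtend hL.le (domRestrict (Icc 0 L) f) t, ?_, by simp⟩
  intro x hx
  have h1 := (hc.integral_hasStrictDerivAt 0 x).hasDerivAt
  have h2 : IccExtend hL.le (domRestrict (Icc 0 L) f) x = f x := by
    rw [IccExtend_of_mem _ _ hx]; rfl
  rw [h2] at h1
  exact h1.hasDerivWithinAt

/-- Two functions with the same derivative on `[0, L]`: integral form over `[a, b]`. -/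
theorem abs_sub_le {L : ℝ} {f f' : ℝ → ℝ} (h : DerivOn L f f') (hc : ContinuousOn f' (Icc 0 L))
    {K : ℝ} (hK : ∀ x ∈ Icc 0 L, |f' x| ≤ K) {x y : ℝ} (hx : x ∈ Icc 0 L) (hy : y ∈ Icc 0 L) :
    |f x - f y| ≤ K * |x - y| := by
  have h1 := (convex_Icc (0 : ℝ) L).norm_image_sub_le_of_norm_hasDerivWithin_le
    (f := f) (f' := f') (C := K) (fun z hz => h z hz) (fun z hz => by
      rw [Real.norm_eq_abs]; exact hK z hz) hy hx
  rw [Real.norm_eq_abs, Real.norm_eq_abs] at h1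
  exact h1

theorem abs_le_of_zero {L : ℝ} {f f' : ℝ → ℝ} (h : DerivOn L f f')
    (hc : ContinuousOn f' (Icc 0 L)) (h0 : f 0 = 0) (hL : 0 < L)
    {K : ℝ} (hK : ∀ x ∈ Icc 0 L, |f' x| ≤ K) {x : ℝ} (hx : x ∈ Icc 0 L) :
    |f x| ≤ K * L := by
  have h1 := abs_sub_le h hc hK hx ⟨le_refl 0, hL.le⟩
  rw [h0, sub_zero, sub_zero, abs_of_nonneg hx.1] at h1
  have hK0 : 0 ≤ K := (abs_nonneg _).trans (hK 0 ⟨le_refl 0, hL.le⟩)
  exact h1.trans (mul_le_mul_of_nonneg_left hx.2 hK0)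

/-- boundedness of a continuous function on `[0, L]`. -/
theorem exists_bound {L : ℝ} {f : ℝ → ℝ} (hf : ContinuousOn f (Icc 0 L)) :
    ∃ K : ℝ, 0 < K ∧ ∀ x ∈ Icc 0 L, |f x| ≤ K := by
  obtain ⟨K, hK⟩ := isCompact_Icc.exists_bound_of_continuousOn hf
  refine ⟨max K 1, lt_of_lt_of_le one_pos (le_max_right _ _), fun x hx => ?_⟩
  exact ((Real.norm_eq_abs _).symm.le.trans (hK x hx)).trans (le_max_left _ _)

theorem uniq {L : ℝ} (hL : 0 < L) {f a b : ℝ → ℝ} (h1 : DerivOn L f a) (h2 : DerivOn L f b) :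
    ∀ x ∈ Icc 0 L, a x = b x := by
  intro x hx
  exact (uniqueDiffOn_Icc hL x hx).eq_deriv _ (h1 x hx) (h2 x hx)

/-- nonnegative continuous function with zero integral. -/
theorem eq_zero_of_integral {L : ℝ} (hL : 0 < L) {f : ℝ → ℝ} (hf : ContinuousOn f (Icc 0 L))
    (h0 : ∀ x ∈ Icc 0 L, 0 ≤ f x) (hI : ∫ x in (0)..L, f x ≤ 0) : ∀ x ∈ Icc 0 L, f x = 0 := by
  by_contra hne
  push Not at hne
  obtain ⟨x, hx, hne⟩ := hne
  have hpos : 0 < f x := lt_of_le_of_ne (h0 x hx) (Ne.symm hne)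
  have : 0 < ∫ x in (0)..L, f x :=
    intervalIntegral.integral_pos hL hf (fun y hy => h0 y (Ioc_subset_Icc_self hy)) ⟨x, hx, hpos⟩
  linarith

section Steady

variable {L d : ℝ} {m θ θ' θ'' : ℝ → ℝ}

theorem st_c0 (h : Steady L m d θ θ' θ'') : ContinuousOn θ (Icc 0 L) := DerivOn.cont h.d1
theorem st_c1 (h : Steady L m d θ θ' θ'') : ContinuousOn θ' (Icc 0 L) := DerivOn.cont h.d2

theorem st_eq2 (h : Steady L m d θ θ' θ'') (hd : 0 < d) : ∀ x ∈ Icc 0 L,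
    θ'' x = -(θ x * (m x - θ x)) / d := by
  intro x hx
  have := h.eq x hx
  field_simp
  linarith

theorem st_c2 (h : Steady L m d θ θ' θ'') (hm : ContinuousOn m (Icc 0 L)) (hd : 0 < d) :
    ContinuousOn θ'' (Icc 0 L) := by
  have h1 : ContinuousOn (fun x => -(θ x * (m x - θ x)) / d) (Icc 0 L) :=
    (((st_c0 h).mul (hm.sub (st_c0 h))).neg).div_const d
  exact h1.congr (st_eq2 h hd)

/-- `ζ = θ'/θ` and its derivative. -/
theorem st_zeta (h : Steady L m d θ θ' θ'') :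
    DerivOn L (fun x => θ' x / θ x) (fun x => θ'' x / θ x - (θ' x / θ x) ^ 2) := by
  intro x hx
  have hp := h.pos x hx
  have := (h.d2 x hx).div (h.d1 x hx) hp.ne'
  refine this.congr_deriv ?_
  field_simp

end Steady

end Pool.Agent.Lib.MP_4fbe7c_an.SD.H95
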